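import Pool.Agent.W811.Dos.Stm

/-!
Local functions of the potential are bounded, and measurable in the phase.
-/

set_option autoImplicit false

open MeasureTheory Filter Topology Set

namespace Pool.Agent.W247.Dos

open Pool.Agent.W811.Dos Pool.Agent.H695R3.ST

lemma sch_bound {B : ℝ} {V : ℤ → ℝ} (hV : ∀ n, |V n| ≤ B) {f : ℤ → ℝ} {C : ℝ}
    (hf : ∀ n, |f n| ≤ C) (n : ℤ) : |sch V f n| ≤ (2 + B) * C := by
  have hB : 0 ≤ B := (abs_nonneg _).trans (hV 0)
  have hC : 0 ≤ C := (abs_nonneg _).trans (hf 0)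
  unfold sch
  have h1 := hf (n + 1)
  have h2 := hf (n - 1)
  have h3 : |V n * f n| ≤ B * C := by
    rw [abs_mul]
    exact mul_le_mul (hV n) (hf n) (abs_nonneg _) hB
  calc |f (n + 1) + f (n - 1) + V n * f n| ≤ |f (n + 1)| + |f (n - 1)| + |V n * f n| :=
        abs_add_three _ _ _
    _ ≤ C + C + B * C := by gcongr
    _ = (2 + B) * C := by ring

lemma iter_bound {B : ℝ} {V : ℤ → ℝ} (hV : ∀ n, |V n| ≤ B) (k : ℕ) {f : ℤ → ℝ}
    (hf : ∀ n, |f n| ≤ 1) : ∀ n, |((sch V)^[k] f) n| ≤ (2 + B) ^ k := by
  induction k with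
  | zero => intro n; simpa using hf n
  | succ k ih =>
    intro n
    rw [Function.iterate_succ_apply', pow_succ, mul_comm]
    exact sch_bound hV ih n

lemma pot_meas (lam α : ℝ) (n : ℤ) : Measurable (fun ω => pot lam α ω n) := by
  unfold pot
  refine Measurable.ite ?_ measurable_const measurable_const
  exact measurableSet_le measurable_const (measurable_fract.comp (measurable_id.add_const _))

lemma iter_meas (lam α : ℝ) (k : ℕ) (f : ℤ → ℝ) :
    ∀ n, Measurable (fun ω => ((sch (pot lam α ω))^[k] f) n) := by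
  induction k with
  | zero => intro n; exact measurable_const
  | succ k ih =>
    intro n
    simp only [Function.iterate_succ_apply']
    unfold sch
    exact ((ih (n + 1)).add (ih (n - 1))).add ((pot_meas lam α n).mul (ih n))

theorem lm : TLm := by
  refine ⟨fun B V hV k n => ?_, fun lam α k => iter_meas lam α k _ 0⟩
  refine iter_bound hV k (fun j => ?_) n
  split_ifs <;> simp

end Pool.Agent.W247.Dos
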