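import Pool.Agent.W247.Dos.LM
import Pool.Agent.H695R3.ST.Bloch

/-!
Power sums of the zeros of the trace polynomial.
-/

set_option autoImplicit false

open Filter Topology Set

namespace Pool.Agent.W247.Dos

open Pool.Agent.W811.Dos Pool.Agent.H695R3.ST

variable {q : ℕ}

lemma mod_lt' (hq : 1 ≤ q) (l : ℤ) : ((l - 1) % (q : ℤ)).toNat < q := by
  have h1 := Int.emod_nonneg (l - 1) (show (q : ℤ) ≠ 0 by omega)
  have h2 := Int.emod_lt_of_pos (l - 1) (show (0 : ℤ) < q by omega)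
  omega

/-- extension of a vector to a function with `f (l + q) = I * f l` -/
noncomputable def ext (hq : 1 ≤ q) (u : Fin q → ℂ) (l : ℤ) : ℂ :=
  Complex.I ^ ((l - 1) / (q : ℤ)) * u ⟨((l - 1) % (q : ℤ)).toNat, mod_lt' hq l⟩

lemma ext_site (hq : 1 ≤ q) (u : Fin q → ℂ) (j : Fin q) : ext hq u ((j : ℕ) + 1) = u j := by
  unfold ext
  have hj : ((j : ℕ) : ℤ) < q := by exact_mod_cast j.2
  have h1 : (((j : ℕ) : ℤ) + 1 - 1) / (q : ℤ) = 0 := by
    rw [add_sub_cancel_right]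
    exact Int.ediv_eq_zero_of_lt (by omega) hj
  have h2 : ((((j : ℕ) : ℤ) + 1 - 1) % (q : ℤ)).toNat = j := by
    rw [add_sub_cancel_right, Int.emod_eq_of_lt (by omega) hj]
    simp
  rw [h1, zpow_zero, one_mul]
  congr 1
  exact Fin.ext h2

lemma ext_add (hq : 1 ≤ q) (u : Fin q → ℂ) (l : ℤ) :
    ext hq u (l + q) = Complex.I * ext hq u l := by
  unfold ext
  have hq0 : (q : ℤ) ≠ 0 := by omega
  have h1 : (l + q - 1) / (q : ℤ) = (l - 1) / q + 1 := by
    rw [show l + q - 1 = (l - 1) + 1 * (q : ℤ) by ring, Int.add_mul_ediv_right _ _ hq0]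
  have h2 : (l + q - 1) % (q : ℤ) = (l - 1) % q := by
    rw [show l + q - 1 = (l - 1) + 1 * (q : ℤ) by ring, Int.add_mul_emod_self_right]
  rw [h1, zpow_add_one₀ Complex.I_ne_zero]
  have h3 : (⟨((l + q - 1) % (q : ℤ)).toNat, mod_lt' hq (l + q)⟩ : Fin q) =
      ⟨((l - 1) % (q : ℤ)).toNat, mod_lt' hq l⟩ := Fin.ext (by simp only [h2])
  rw [h3]
  ring

lemma tw_mul (f : ℤ → ℂ) (hf : ∀ l, f (l + q) = Complex.I * f l) (m : ℤ) :
    ∀ l, f (l + m * q) = Complex.I ^ m * f l := by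
  induction m using Int.induction_on with
  | zero => intro l; simp
  | succ i ih =>
    intro l
    rw [show l + ((i : ℤ) + 1) * q = (l + i * q) + q by ring, hf, ih,
      zpow_add_one₀ Complex.I_ne_zero]
    ring
  | pred i ih =>
    intro l
    have h1 := hf (l + (-(i : ℤ) - 1) * q)
    rw [show l + (-(i : ℤ) - 1) * q + q = l + (-(i : ℤ)) * q by ring, ih] at h1
    rw [zpow_sub_one₀ Complex.I_ne_zero]
    rw [mul_assoc, mul_comm (Complex.I)⁻¹, ← mul_assoc, h1]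
    field_simp

lemma tw_eq (hq : 1 ≤ q) (f : ℤ → ℂ) (hf : ∀ l, f (l + q) = Complex.I * f l) :
    ext hq (fun j : Fin q => f ((j : ℕ) + 1)) = f := by
  funext l
  unfold ext
  simp only
  have h1 := Int.emod_nonneg (l - 1) (show (q : ℤ) ≠ 0 by omega)
  rw [Int.toNat_of_nonneg h1, ← tw_mul f hf]
  congr 1
  have := Int.emod_add_mul_ediv (l - 1) q
  linarith

/-- the periodic continuation of the potential -/
noncomputable def Vq (q : ℕ) (V : ℤ → ℝ) (l : ℤ) : ℝ := V ((l - 1) % (q : ℤ) + 1)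

lemma Vq_add (V : ℤ → ℝ) (l : ℤ) : Vq q V (l + q) = Vq q V l := by
  unfold Vq
  rw [show l + q - 1 = (l - 1) + 1 * (q : ℤ) by ring, Int.add_mul_emod_self_right]

lemma Vq_eq (V : ℤ → ℝ) {l : ℤ} (h1 : 1 ≤ l) (h2 : l ≤ q) : Vq q V l = V l := by
  unfold Vq
  rw [Int.emod_eq_of_lt (by omega) (by omega)]
  congr 1
  ring

/-- the operator on complex sequences -/
noncomputable def scc (V : ℤ → ℝ) (f : ℤ → ℂ) (n : ℤ) : ℂ := f (n + 1) + f (n - 1) + V n * f n

lemma scc_tw (V : ℤ → ℝ) (f : ℤ → ℂ) (hf : ∀ l, f (l + q) = Complex.I * f l) (l : ℤ) :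
    scc (Vq q V) f (l + q) = Complex.I * scc (Vq q V) f l := by
  unfold scc
  rw [Vq_add, show l + q + 1 = (l + 1) + q by ring, show l + q - 1 = (l - 1) + q by ring, hf, hf, hf]
  ring

/-- the twisted periodic operator -/
noncomputable def AA (hq : 1 ≤ q) (V : ℤ → ℝ) : Module.End ℂ (Fin q → ℂ) where
  toFun u j := scc (Vq q V) (ext hq u) ((j : ℕ) + 1)
  map_add' u v := by
    funext j
    simp only [scc, ext, Pi.add_apply]
    ring
  map_smul' c u := by
    funext j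
    simp only [scc, ext, Pi.smul_apply, smul_eq_mul, RingHom.id_apply]
    ring

lemma ext_AA (hq : 1 ≤ q) (V : ℤ → ℝ) (u : Fin q → ℂ) :
    ext hq (AA hq V u) = scc (Vq q V) (ext hq u) :=
  tw_eq hq _ (scc_tw V _ (ext_add hq u))

lemma ext_AA_pow (hq : 1 ≤ q) (V : ℤ → ℝ) (k : ℕ) (u : Fin q → ℂ) :
    ext hq ((AA hq V ^ k) u) = (scc (Vq q V))^[k] (ext hq u) := by
  induction k with
  | zero => rfl
  | succ k ih =>
    rw [Function.iterate_succ_apply', ← ih, ← ext_AA, pow_succ', Module.End.mul_apply]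

/-! ### the diagonal elements -/

lemma scc_bound {B : ℝ} {V : ℤ → ℝ} (hV : ∀ n, |V n| ≤ B) {f : ℤ → ℂ} {C : ℝ}
    (hf : ∀ n, ‖f n‖ ≤ C) (n : ℤ) : ‖scc V f n‖ ≤ (2 + B) * C := by
  have hB : 0 ≤ B := (abs_nonneg _).trans (hV 0)
  unfold scc
  have h1 := hf (n + 1)
  have h2 := hf (n - 1)
  have h3 : ‖(V n : ℂ) * f n‖ ≤ B * C := by
    rw [norm_mul, Complex.norm_real, Real.norm_eq_abs]
    exact mul_le_mul (hV n) (hf n) (norm_nonneg _) hB
  calc ‖f (n + 1) + f (n - 1) + V n * f n‖ ≤ ‖f (n + 1)‖ + ‖f (n - 1)‖ + ‖(V n : ℂ) * f n‖ :=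
        norm_add₃_le
    _ ≤ C + C + B * C := by gcongr
    _ = (2 + B) * C := by ring

lemma iter_scc_bound {B : ℝ} {V : ℤ → ℝ} (hV : ∀ n, |V n| ≤ B) (k : ℕ) {f : ℤ → ℂ}
    (hf : ∀ n, ‖f n‖ ≤ 1) : ∀ n, ‖((scc V)^[k] f) n‖ ≤ (2 + B) ^ k := by
  induction k with
  | zero => intro n; simpa using hf n
  | succ k ih =>
    intro n
    rw [Function.iterate_succ_apply', pow_succ, mul_comm]
    exact scc_bound hV ih n

lemma ext_norm (hq : 1 ≤ q) (u : Fin q → ℂ) (hu : ∀ j, ‖u j‖ ≤ 1) (l : ℤ) : ‖ext hq u l‖ ≤ 1 := by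
  unfold ext
  rw [norm_mul, norm_zpow, Complex.norm_I, one_zpow, one_mul]
  exact hu _

lemma single_norm (i j : Fin q) : ‖(Pi.single i (1 : ℂ) : Fin q → ℂ) j‖ ≤ 1 := by
  by_cases h : j = i
  · subst h; simp
  · simp [Pi.single_eq_of_ne h]

lemma diag_bound {B : ℝ} {V : ℤ → ℝ} (hV : ∀ n, |V n| ≤ B) (hq : 1 ≤ q) (k : ℕ) (j : Fin q) :
    ‖((AA hq V ^ k) (Pi.single j 1)) j‖ ≤ (2 + B) ^ k := by
  rw [← ext_site hq ((AA hq V ^ k) (Pi.single j 1)) j, ext_AA_pow]
  exact iter_scc_bound (V := Vq q V) (fun n => hV _) k (ext_norm hq _ (single_norm j)) _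

lemma ext_single (hq : 1 ≤ q) (j : Fin q) {n : ℤ} (h1 : 1 ≤ n) (h2 : n ≤ q) :
    ext hq (Pi.single j 1) n = if n = (j : ℕ) + 1 then 1 else 0 := by
  obtain ⟨m, rfl⟩ : ∃ m : ℕ, n = (m : ℤ) + 1 := ⟨(n - 1).toNat, by omega⟩
  have hm : m < q := by omega
  have := ext_site hq (Pi.single j 1) ⟨m, hm⟩
  simp only at this
  rw [this]
  by_cases h : m = j
  · subst h
    have e : (⟨(j : ℕ), hm⟩ : Fin q) = j := rfl
    rw [e]
    simp
  · rw [Pi.single_eq_of_ne (by intro h'; exact h (congrArg Fin.val h')), if_neg (by omega)]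

lemma diag_eq (V : ℤ → ℝ) (hq : 1 ≤ q) (k : ℕ) (j : Fin q) (h1 : k ≤ j) (h2 : (j : ℕ) + k < q) :
    ((AA hq V ^ k) (Pi.single j 1)) j = (loc V k ((j : ℕ) + 1) : ℂ) := by
  rw [← ext_site hq ((AA hq V ^ k) (Pi.single j 1)) j, ext_AA_pow]
  have key : ∀ i, i ≤ k → ∀ n : ℤ, |n - ((j : ℕ) + 1)| ≤ (k : ℤ) - i →
      ((scc (Vq q V))^[i] (ext hq (Pi.single j 1))) n =
        ((((sch V)^[i] (fun l => if l = ((j : ℕ) + 1 : ℤ) then 1 else 0)) n : ℝ) : ℂ) := by
    intro i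
    induction i with
    | zero =>
      intro _ n hn
      rw [abs_le] at hn
      simp only [Function.iterate_zero, id_eq]
      rw [ext_single hq j (by omega) (by omega)]
      split_ifs <;> simp
    | succ i ih =>
      intro hi n hn
      rw [abs_le] at hn
      have hn0 := ih (by omega) n (by rw [abs_le]; push_cast at hn; constructor <;> omega)
      have hn1 := ih (by omega) (n + 1) (by rw [abs_le]; push_cast at hn; constructor <;> omega)
      have hn2 := ih (by omega) (n - 1) (by rw [abs_le]; push_cast at hn; constructor <;> omega)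
      rw [Function.iterate_succ_apply', Function.iterate_succ_apply', scc, sch,
        hn0, hn1, hn2, Vq_eq V (by push_cast at hn; omega) (by push_cast at hn; omega)]
      push_cast
      rfl
  exact key k le_rfl _ (by simp)

/-! ### the eigenvectors -/

lemma exists_eig (V : ℤ → ℝ) (hq : 1 ≤ q) (E : ℝ) (hE : (D V 1 q).eval E = 0) :
    ∃ v : Fin q → ℂ, (AA hq V).HasEigenvector (E : ℂ) v := by
  have hz : Polynomial.aeval (E : ℂ) (D V 1 q) = 0 := by
    have h1 : ((algebraMap ℝ ℂ) E) = (E : ℂ) := rfl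
    rw [← h1, Polynomial.aeval_algebraMap_apply, Polynomial.coe_aeval_eq_eval, hE, map_zero]
  obtain ⟨u, hu0, hu, huq, huq1⟩ := exists_bloch V 1 q (E : ℂ) Complex.I (by rw [hz]; simp)
  set v : Fin q → ℂ := fun j => u (j + 1) with hv
  have hmid : ∀ n : ℕ, 1 ≤ n → n ≤ q → ext hq v n = u n := by
    intro n h1 h2
    obtain ⟨m, rfl⟩ : ∃ m, n = m + 1 := ⟨n - 1, by omega⟩
    have := ext_site hq v ⟨m, by omega⟩
    simpa using this
  have hend : ext hq v ((q + 1 : ℕ) : ℤ) = u (q + 1) := by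
    have h1 := ext_add hq v 1
    have h2 := hmid 1 le_rfl hq
    rw [Nat.cast_one] at h2
    rw [h2, ← huq1] at h1
    rw [← h1]
    congr 1
    push_cast
    ring
  have hbeg : ext hq v ((0 : ℕ) : ℤ) = u 0 := by
    have h1 := ext_add hq v 0
    have h2 := hmid q hq le_rfl
    rw [zero_add, h2, huq] at h1
    exact (mul_left_cancel₀ Complex.I_ne_zero h1).symm
  have hall : ∀ n : ℕ, n ≤ q + 1 → ext hq v n = u n := by
    intro n hn
    rcases Nat.eq_zero_or_pos n with rfl | h1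
    · exact hbeg
    · rcases Nat.lt_or_ge q n with h2 | h2
      · obtain rfl : n = q + 1 := by omega
        exact hend
      · exact hmid n h1 h2
  refine ⟨v, Module.End.hasEigenvector_iff.2 ⟨?_, ?_⟩⟩
  · rw [Module.End.mem_eigenspace_iff]
    funext j
    change scc (Vq q V) (ext hq v) ((j : ℕ) + 1) = (E : ℂ) * u (j + 1)
    have hj := j.2
    unfold scc
    have e1 := hall (j + 2) (by omega)
    have e2 := hall (j + 1) (by omega)
    have e3 := hall j (by omega)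
    have a1 : (((j : ℕ) : ℤ) + 1 + 1) = ((j + 2 : ℕ) : ℤ) := by push_cast; ring
    have a2 : (((j : ℕ) : ℤ) + 1) = ((j + 1 : ℕ) : ℤ) := by push_cast; ring
    have a3 : (((j : ℕ) : ℤ) + 1 - 1) = ((j : ℕ) : ℤ) := by ring
    have hr := hu j
    rw [Vq_eq V (by omega) (by omega), a1, a3, a2, e1, e2, e3, hr]
    have a4 : (1 : ℤ) + ((j : ℕ) : ℤ) = ((j + 1 : ℕ) : ℤ) := by push_cast; ring
    rw [a4]
    ring
  · intro h0
    have hz : ∀ n : ℤ, ext hq v n = 0 := by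
      intro n
      rw [h0]
      simp [ext]
    rcases hu0 with h | h
    · exact h (by rw [← hall 0 (by omega), hz])
    · exact h (by rw [← hall 1 (by omega), hz])

lemma trace_eig (V : ℤ → ℝ) (hq : 1 ≤ q) (k : ℕ) (Z : Finset ℝ) (hZ : Z.card = q)
    (hE : ∀ E ∈ Z, (D V 1 q).eval E = 0) :
    LinearMap.trace ℂ (Fin q → ℂ) (AA hq V ^ k) = ∑ E ∈ Z, (E : ℂ) ^ k := by
  have h1 : ∀ E : Z, ∃ v : Fin q → ℂ, (AA hq V).HasEigenvector ((E : ℝ) : ℂ) v := fun E =>
    exists_eig V hq E (hE E E.2)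
  choose v hv using h1
  have hinj : Function.Injective (fun E : Z => (((E : ℝ) : ℂ))) := by
    intro a b h
    exact Subtype.ext (Complex.ofReal_injective h)
  have hli := Module.End.eigenvectors_linearIndependent' (AA hq V) (fun E : Z => (((E : ℝ) : ℂ)))
    hinj v hv
  have hne : Nonempty Z := by
    have : 0 < Z.card := by omega
    exact ⟨⟨_, (Finset.card_pos.1 this).choose_spec⟩⟩
  have hcard : Fintype.card Z = Module.finrank ℂ (Fin q → ℂ) := by
    simp [hZ]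
  set b := basisOfLinearIndependentOfCardEqFinrank hli hcard with hb
  rw [LinearMap.trace_eq_matrix_trace ℂ b, Matrix.trace]
  simp only [Matrix.diag_apply, LinearMap.toMatrix_apply]
  have h2 : ∀ E : Z, b.repr ((AA hq V ^ k) (b E)) E = ((E : ℝ) : ℂ) ^ k := by
    intro E
    have h3 : b E = v E := by rw [hb, coe_basisOfLinearIndependentOfCardEqFinrank]
    have h4 : (AA hq V ^ k) (b E) = (((E : ℝ) : ℂ) ^ k) • b E := by
      rw [h3, (hv E).pow_apply]
    rw [h4, map_smul, Finsupp.smul_apply, Module.Basis.repr_self, Finsupp.single_eq_same, smul_eq_mul,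
      mul_one]
  rw [Finset.sum_congr rfl fun E _ => h2 E]
  exact Finset.sum_coe_sort Z (fun E => (E : ℂ) ^ k)

lemma trace_std (V : ℤ → ℝ) (hq : 1 ≤ q) (k : ℕ) :
    LinearMap.trace ℂ (Fin q → ℂ) (AA hq V ^ k) =
      ∑ j : Fin q, ((AA hq V ^ k) (Pi.single j 1)) j := by
  rw [LinearMap.trace_eq_matrix_trace ℂ (Pi.basisFun ℂ (Fin q)), Matrix.trace]
  refine Finset.sum_congr rfl fun j _ => ?_
  rw [Matrix.diag_apply, LinearMap.toMatrix_apply, Pi.basisFun_apply, Pi.basisFun_repr]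

theorem tr : TTr := by
  intro B k
  refine ⟨2 * k * (2 * (2 + B) ^ k), fun V hV q hq Z hZ hE => ?_⟩
  have hB : 0 ≤ B := (abs_nonneg _).trans (hV 0)
  have h1 := trace_eig V hq k Z hZ hE
  rw [trace_std] at h1
  have h2 : (((∑ E ∈ Z, E ^ k) - ∑ n ∈ Finset.range q, loc V k ((n : ℤ) + 1) : ℝ) : ℂ) =
      ∑ j : Fin q, (((AA hq V ^ k) (Pi.single j 1)) j - (loc V k (((j : ℕ) : ℤ) + 1) : ℂ)) := by
    rw [Finset.sum_sub_distrib, h1, ← Fin.sum_univ_eq_sum_range (fun n => loc V k ((n : ℤ) + 1)) q]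
    push_cast
    rfl
  have h3 : |(∑ E ∈ Z, E ^ k) - ∑ n ∈ Finset.range q, loc V k ((n : ℤ) + 1)| =
      ‖(((∑ E ∈ Z, E ^ k) - ∑ n ∈ Finset.range q, loc V k ((n : ℤ) + 1) : ℝ) : ℂ)‖ := by
    rw [Complex.norm_real, Real.norm_eq_abs]
  rw [h3, h2]
  set g : Fin q → ℝ := fun j => if (j : ℕ) < k ∨ q ≤ (j : ℕ) + k then 2 * (2 + B) ^ k else 0 with hg
  have hpow : 0 ≤ (2 + B) ^ k := by positivity
  have h4 : ∀ j : Fin q, ‖((AA hq V ^ k) (Pi.single j 1)) j - (loc V k (((j : ℕ) : ℤ) + 1) : ℂ)‖ ≤ g j := by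
    intro j
    simp only [hg]
    split_ifs with h
    · have a1 := diag_bound hV hq k j
      have a2 : ‖(loc V k (((j : ℕ) : ℤ) + 1) : ℂ)‖ ≤ (2 + B) ^ k := by
        rw [Complex.norm_real, Real.norm_eq_abs]
        exact lm.1 B V hV k _
      calc _ ≤ ‖((AA hq V ^ k) (Pi.single j 1)) j‖ + ‖(loc V k (((j : ℕ) : ℤ) + 1) : ℂ)‖ :=
            norm_sub_le _ _
        _ ≤ (2 + B) ^ k + (2 + B) ^ k := add_le_add a1 a2
        _ = _ := by ring
    · rw [not_or, not_lt, not_le] at h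
      rw [diag_eq V hq k j h.1 h.2, sub_self, norm_zero]
  refine (norm_sum_le _ _).trans ((Finset.sum_le_sum fun j _ => h4 j).trans ?_)
  have h5 : ∑ j : Fin q, g j = ∑ n ∈ Finset.range q,
      (if n < k ∨ q ≤ n + k then 2 * (2 + B) ^ k else 0) :=
    Fin.sum_univ_eq_sum_range (fun n => if n < k ∨ q ≤ n + k then 2 * (2 + B) ^ k else 0) q
  rw [h5, ← Finset.sum_filter, Finset.sum_const, nsmul_eq_mul]
  refine mul_le_mul_of_nonneg_right ?_ (by positivity)
  have h6 : (Finset.range q).filter (fun n => n < k ∨ q ≤ n + k) ⊆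
      Finset.range k ∪ Finset.Ico (q - k) q := by
    intro n hn
    simp only [Finset.mem_filter, Finset.mem_range, Finset.mem_union, Finset.mem_Ico] at hn ⊢
    omega
  have h7 := (Finset.card_le_card h6).trans (Finset.card_union_le _ _)
  rw [Finset.card_range, Nat.card_Ico] at h7
  have h8 : ((Finset.range q).filter (fun n => n < k ∨ q ≤ n + k)).card ≤ 2 * k := by omega
  exact_mod_cast h8

end Pool.Agent.W247.Dos
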